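import Pool.Agent.Lib.ES85.Final

/-!
# All but finitely many numbers of missing edges occur, with any further coordinates
-/

open Finset Pool.Agent.ES85

/-- Let `d ≥ 4` and let `a_2, ..., a_(d-1)` be natural numbers. Then for every natural number
`a_1 ≥ 50 (d + a_2 + ... + a_(d-1))^2` there is a simplicial `d`-polytope whose empty simplex vector
is `(a_1, a_2, ..., a_(d-1), 0)`. -/
theorem Pool.Agent.Results.MP_b64951_co.AlmostAllVectors.result (d : ℕ) (hd : 4 ≤ d) (a : ℕ → ℕ)
    (ha : 50 * (d + ∑ i ∈ Icc 2 (d - 1), a i) ^ 2 ≤ a 1) :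
    ∃ V : Finset (EuclideanSpace ℝ (Fin d)), IsPolytope V ∧ IsSimplicial V ∧
      (∀ i ∈ Icc 1 (d - 1), (emptySimplices V i).card = a i) ∧ (emptySimplices V d).card = 0 :=
  exists_polytope d hd a ha
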