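import Pool.Agent.Lib.ES85.Low2

/-!
# Empty `(d - 1)`-simplices force missing edges
-/

open Finset Pool.Agent.ES85

/-- Let `d ≥ 3`, let `P` be a `d`-polytope, simplicial or not, with `n` vertices and `m` empty
`(d - 1)`-simplices. Then `m ≤ n - d - 1`, and the number of empty `1`-simplices of `P` is at least
`m (n - d) - m (m + 1) / 2`. -/
theorem Pool.Agent.Results.MP_b64951_co.EmptyFacets.result (d : ℕ) (hd : 3 ≤ d)
    (V : Finset (EuclideanSpace ℝ (Fin d))) (hV : IsPolytope V) (n m : ℕ) (hn : V.card = n)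
    (hm : (emptySimplices V (d - 1)).card = m) :
    m + d + 1 ≤ n ∧ m * (n - d) ≤ (emptySimplices V 1).card + (m + 1).choose 2 := by
  classical
  have hfin : Module.finrank ℝ (EuclideanSpace ℝ (Fin d)) = d := by simp
  have h := mul_le hV (by rw [hfin]; exact hd)
  rw [hfin, hm, hn] at h
  exact h
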