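import Pool.Agent.Lib.ES96.Suff

/-!
# The empty simplices of the polytopes of dimension three
-/

open Finset Pool.Agent.ES85

/-- (1) A vector `(a, k, c)` is the vector `(e_1, e_2, e_3)` of empty simplex numbers of a polytope
of dimension three if and only if it is `(0, 0, 1)` or `c = 0` and `a = t (t + 1) / 2 + D` for some
`t ≥ 1` and `0 ≤ D ≤ t` with `2 D + 3 k ≤ 3 t` and `(D, k) ≠ (0, t - 1)`.
(2) With the number of vertices: there is a polytope of dimension three with `n` vertices and with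
the vector `(a, k, c)` if and only if `n = 4` and `(a, k, c) = (0, 0, 1)`, or `c = 0` and, for some
`t ≥ 1` and `D ≥ 0`, `n = t + 4`, `a = t (t + 1) / 2 + D`, `2 D + 3 k ≤ 3 t` and
`(D, k) ≠ (0, t - 1)`. -/
theorem Pool.Agent.Results.MP_b64951_co.ThreePolytopes.result :
    (∀ a k c : ℕ,
      (∃ V : Finset (EuclideanSpace ℝ (Fin 3)), IsPolytope V ∧ (emptySimplices V 1).card = a ∧
        (emptySimplices V 2).card = k ∧ (emptySimplices V 3).card = c) ↔
      (a = 0 ∧ k = 0 ∧ c = 1) ∨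
        (c = 0 ∧ ∃ t D, 1 ≤ t ∧ D ≤ t ∧ a = (t + 1).choose 2 + D ∧ 2 * D + 3 * k ≤ 3 * t ∧
          ¬ (D = 0 ∧ k + 1 = t))) ∧
    ∀ n a k c : ℕ,
      (∃ V : Finset (EuclideanSpace ℝ (Fin 3)), IsPolytope V ∧ V.card = n ∧
        (emptySimplices V 1).card = a ∧ (emptySimplices V 2).card = k ∧
        (emptySimplices V 3).card = c) ↔
      (n = 4 ∧ a = 0 ∧ k = 0 ∧ c = 1) ∨
        (c = 0 ∧ ∃ t D, 1 ≤ t ∧ n = t + 4 ∧ a = (t + 1).choose 2 + D ∧ 2 * D + 3 * k ≤ 3 * t ∧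
          ¬ (D = 0 ∧ k + 1 = t)) :=
  ⟨Pool.Agent.ES96.three, Pool.Agent.ES96.three_n⟩
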