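import Pool.Agent.Lib.ES85.Triples

/-!
# The numbers of vertices, missing edges and empty `(d - 1)`-simplices of simplicial polytopes
-/

open Finset Pool.Agent.ES85

/-- Let `d ≥ 4`. There is a simplicial `d`-polytope with `n` vertices, `e_1 = a` and
`e_(d-1) = m` if and only if `n = d + t` where either `m = t - 1` and `a = t (t - 1) / 2`, or
`m ≤ t - 2` and `m t - m (m + 1) / 2 ≤ a ≤ t (t - 1) / 2 - 1`. -/
theorem Pool.Agent.Results.MP_b64951_co.VerticesEdgesFacets.result (d : ℕ) (hd : 4 ≤ d)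
    (n a m : ℕ) : (∃ V : Finset (EuclideanSpace ℝ (Fin d)), IsPolytope V ∧ IsSimplicial V ∧
      V.card = n ∧ (emptySimplices V 1).card = a ∧ (emptySimplices V (d - 1)).card = m) ↔
    ∃ t, n = d + t ∧ ((m + 1 = t ∧ a = t.choose 2) ∨
      (m + 2 ≤ t ∧ m * t ≤ a + (m + 1).choose 2 ∧ a + 1 ≤ t.choose 2)) :=
  triples hd n a m
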